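import Pool.Agent.H79.FX.Cht
import Pool.Agent.H8.FX.Slt
import Pool.Agent.H99.GC.ChS
import Pool.Agent.H67.EX.MsX

/-! # GX.NulBX : rows over a nonintegral base point or with a nonintegral `x` specialise to rows of class zero -/

namespace GB

open ES H68.BB Module FX

variable {K : Type} [Field K] [IsAlgClosed K] [CharZero K] {s c k : ℕ} {X : XD K s c} {R : Type} [CommRing R] [Algebra K R] {P : OnePt K R} (C : Cht X P)
  {π : Place K (Om K)}

omit [CharZero K] in
/-- a nonintegral base point specialises to the point at infinity -/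
theorem spV_inf (j0 : Fin c) {β : R →ₐ[K] Om K} {f : R} (hβ : β f ∉ π.V) : SpV X.v π (C.bp β) C.inf := by
  refine ⟨inf_ne (C.col j0), ?_⟩
  obtain ⟨c₁, hc₁, -, h1, h2⟩ := inf_scale P hβ
  refine ⟨c₁ ^ C.m, pow_ne_zero _ hc₁, fun i => ?_⟩
  have e : (c₁ ^ C.m) ^ X.v i * C.bp β i = c₁ ^ (C.m * X.v i) * β (C.t i) := by
    rw [← pow_mul]; rfl
  rw [e]
  unfold Cht.inf
  by_cases h0 : C.t i = 0
  · have e2 : (if P.deg (C.t i) = C.m * X.v i then P.lc (C.t i) else 0) = 0 := by
      rw [h0, P.lc_zero]; split_ifs <;> rfl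
    rw [e2, h0, map_zero, mul_zero]
    exact Rd.zero
  · by_cases hd : P.deg (C.t i) = C.m * X.v i
    · rw [if_pos hd, ← hd]
      exact h1 _ h0
    · rw [if_neg hd]
      refine h2 _ _ (Or.inr ?_)
      rcases C.deg i with h3 | h3
      · exact absurd h3 h0
      · omega

theorem nul_bx (hX : X.Ok) (hk : 0 < k) (hinf : ∃ j, dd (X.W j) C.inf = 0) {j : Fin c} {β : R →ₐ[K] Om K} {x y : Om K}
    (hn : (∃ f, β f ∉ π.V) ∨ x ∉ π.V) : NulC X k π j (⟨C.bp β, x, y⟩ : Pt s (Om K)) := by
  intro Q hQ hQj hQβ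
  have hβQ : Q.β = C.bp β := hQβ
  obtain ⟨r, hr⟩ := SpR_exists hX π hQ
  by_cases hβ : ∀ f, β f ∈ π.V
  · have hx : x ∉ π.V := by
      rcases hn with ⟨f, hf⟩ | hx
      · exact absurd (hβ f) hf
      · exact hx
    refine ⟨⟨r.β, Function.update r.P j (o s K)⟩, ⟨hr.β, fun j' => ?_⟩, ?_⟩
    · by_cases hj : j' = j
      · subst hj
        change Sp (X.W j') π (Q.P j') (Function.update r.P j' (o s K) j')
        rw [Function.update_self, hQj]
        have hon := hQ.on j'
        rw [hQj] at hon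
        exact sp_o (C.col j') (hX.W j') hβ hx hon
      · change Sp (X.W j') π (Q.P j') (Function.update r.P j (o s K) j')
        rw [Function.update_of_ne hj]
        exact hr.P j'
    · intro Q' i _ hi
      refine clsX_o X (i := i) (j := j) ?_
      rw [hi]
      exact Function.update_self _ _ _
  · push Not at hβ
    obtain ⟨f, hf⟩ := hβ
    obtain ⟨j1, hj1⟩ := hinf
    refine ⟨⟨C.inf, r.P⟩, ⟨?_, hr.P⟩, ?_⟩
    · rw [hβQ]
      exact spV_inf C j hf
    · intro Q' i hQ' hi
      refine clsX_sing hX hk hQ' (i := i) (j := j1) ?_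
      rw [hi]
      exact hj1

end GB
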