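import Pool.Agent.H99.GX.CurBX
import Pool.Agent.H99.GX.NulBX
import Pool.Agent.H99.GC.FamB

/-! # GX.FamBX : the family through the states of lists of links over points of the chart, one list for every column -/

namespace GB

open ES H68.BB Module Polynomial H71.ES FX

variable {K : Type} [Field K] [IsAlgClosed K] [CharZero K] {s c k : ℕ} {X : XD K s c} {R : Type} [CommRing R] [Algebra K R] {P : OnePt K R} (C : Cht X P)

/-- the state of a multiset of points of the chart and model points -/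
noncomputable def stX {F : Type} [Field F] [Algebra K F] (k : ℕ) (m : Multiset (R →ₐ[K] F) × (Fin c → Mdl F)) : MsX s c F :=
  ⟨m.1.map C.bp, fun j => (m.2 j).x, fun j => (m.2 j).y, fun j => mdlM k (m.2 j)⟩

omit [IsAlgClosed K] [CharZero K] in
private theorem fb_map (k : ℕ) (σ : Om K →+* Om K) (m : Mdl (Om K)) : mdlM k (m.map σ) = (mdlM k m).map (Polynomial.map σ) := by
  have hc : ∀ p : (Om K)[X], (p.map σ).comp (Polynomial.X ^ 2) = (p.comp (Polynomial.X ^ 2)).map σ := by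
    intro p
    rw [Polynomial.map_comp, Polynomial.map_pow, map_X]
  have he : (Polynomial.C ((-1 : Om K) ^ k) : (Om K)[X]) = (Polynomial.C ((-1 : Om K) ^ k)).map σ := by
    rw [Polynomial.map_C]
    congr 1
    rw [RingHom.map_pow, RingHom.map_neg, RingHom.map_one]
  have ht : (m.map σ).t = m.t.map σ := rfl
  have hs : (m.map σ).s = m.s.map σ := rfl
  have hu : (m.map σ).u = m.u.map σ := rfl
  have hv : (m.map σ).v = m.v.map σ := rfl
  ext1 i j
  rw [Matrix.map_apply]
  unfold mdlM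
  rw [ht, hs, hu, hv, hc, hc, hc, hc, Matrix.smul_apply, Matrix.smul_apply, smul_eq_mul, smul_eq_mul, Polynomial.map_mul, ← he]
  congr 1
  fin_cases i <;> fin_cases j <;> simp

private theorem fb_rd {π : Place K (Om K)} {m : Mdl (Om K)} {m0 : Mdl K} (h : RdM π m m0) : RdMt π (mdlM k m) (mdlM k m0) := by
  have h1 : RdM π ({ m with q := Polynomial.X ^ k } : Mdl (Om K)) ({ m0 with q := Polynomial.X ^ k } : Mdl K) := by
    refine ⟨?_, h.x, h.y, h.s, h.t, h.u, h.v⟩
    intro i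
    change Rd π.V π.φ ((Polynomial.X ^ k : (Om K)[X]).coeff i) ((Polynomial.X ^ k : K[X]).coeff i)
    rw [coeff_X_pow, coeff_X_pow]
    split_ifs
    · exact Rd.one
    · exact Rd.zero
  exact (toMs_rd (k := k) (natDegree_X_pow k) (natDegree_X_pow k) (monic_X_pow k) h1).M

private theorem fb_lab {F : Type} [Field F] [Algebra K F] (j : Fin c) (β : R →ₐ[K] F) :
    lab (X.W j) (C.bp β) = (β (C.col j).A, β (C.col j).B) := by
  unfold lab
  have h1 := ev_bp (C.col j) β (X.W j).a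
  have h2 := ev_bp (C.col j) β (X.W j).b
  rw [Cht.col_bp] at h1 h2
  rw [h1, h2]
  rfl

theorem fam_bx (hX : X.Ok) (hinf : ∃ j, dd (X.W j) C.inf = 0) (hab : ∀ j, ∀ e f : K, e • (C.col j).A ^ 3 = f • (C.col j).B ^ 2 → e = 0 ∧ f = 0)
    (j0 : Fin c) (hn : ∀ j, 0 < (C.col j).n) (hk : ∑ j, (C.col j).n + P.g ≤ k) {b : Fin k → (R →ₐ[K] K)} (hb : Function.Injective b)
    (hnd : ∀ j i, ES.ND (lab (X.W j) (C.bp (b i)))) {f : Fin c → List (Lk s K)} (hf : ∀ j, (f j).map Prod.fst = List.ofFn fun i => C.bp (b i))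
    (hl : ∀ j, ∀ g ∈ f j, g.2.ab = lab (X.W j) g.1) {T : Fin c → Vtx K} (hT : ∀ j, T j = tot ((f j).map Prod.snd))
    (h4 : ∀ j, (T j).p ≠ 0 ∧ (T j).ps ≠ 0 ∧ (T j).m ≠ 0 ∧ (T j).ms ≠ 0) (hy : ∀ j, (T j).y ≠ 0) {z : Fin c → K} (hz : ∀ j, z j ^ 3 = 1) :
    FamX X k z ⟨((List.ofFn fun i => C.bp (b i) : List (Fin s → K)) : Multiset (Fin s → K)),
      fun j => z j * (T j).w ^ 2 + z j ^ 2 * (T j).v ^ 2, fun j => (T j).y, fun j => XX ((f j).map Prod.snd)⟩ := by
  have hk0 : 0 < k := by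
    have h2 : (C.col j0).n ≤ ∑ j, (C.col j).n := Finset.single_le_sum (f := fun j => (C.col j).n) (fun _ _ => Nat.zero_le _) (Finset.mem_univ j0)
    have h3 := hn j0
    omega
  have hlen : ∀ j, (f j).length = k := by
    intro j
    have := congrArg List.length (hf j)
    rwa [List.length_map, List.length_ofFn] at this
  have hlen' : ∀ j, ((f j).map Prod.snd).length = k := by
    intro j
    rw [List.length_map, hlen]
  have ha0 : ∀ j i, b i (C.col j).A ≠ 0 := by
    intro j i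
    have := (hnd j i).a
    rwa [fb_lab] at this
  have hb0 : ∀ j i, b i (C.col j).B ≠ 0 := by
    intro j i
    have := (hnd j i).b
    rwa [fb_lab] at this
  have hex : ∀ j, ∃ m0 : Mdl K, m0.q = 1 ∧ OnB k (((((f j).map Prod.snd).map Vtx.ab : List (K × K)) : Multiset (K × K))) m0 ∧
      mdlM k m0 = XX ((f j).map Prod.snd) ∧ m0.x = z j * (tot ((f j).map Prod.snd)).w ^ 2 + z j ^ 2 * (tot ((f j).map Prod.snd)).v ^ 2 ∧
      m0.y = (tot ((f j).map Prod.snd)).y := fun j => mdlB_of hk0 (hlen' j) (hz j)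
  choose m0 hq0 hOn0 hM0 hx0 hy0 using hex
  have hlab : ∀ j, (((f j).map Prod.snd).map Vtx.ab : List (K × K)) = List.ofFn fun i => (b i (C.col j).A, b i (C.col j).B) := by
    intro j
    have e1 : ((f j).map Prod.snd).map Vtx.ab = ((f j).map Prod.fst).map (lab (X.W j)) := by
      rw [List.map_map, List.map_map]
      exact List.map_congr_left fun g hg => hl j g hg
    rw [e1, hf, List.map_ofFn]
    congr 1
    funext i
    exact fb_lab C j (b i)
  have hOn0' : ∀ j, OnB k (Finset.univ.val.map fun i => (b i (C.col j).A, b i (C.col j).B)) (m0 j) := by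
    intro j
    have h := hOn0 j
    rw [hlab j] at h
    rwa [Fin.univ_val_map]
  -- the product `u_k v_k` does not vanish
  have huv : ∀ j, ∃ i i', (m0 j).u.coeff i * (m0 j).v.coeff i' ≠ 0 := by
    intro j
    refine ⟨k, k, ?_⟩
    obtain ⟨-, -, t01, t10⟩ := XX_top ((f j).map Prod.snd)
    rw [hlen', ← hT, ← hM0] at t01 t10
    have e01 : (mdlM k (m0 j) 0 1).coeff (2 * k) = (-1) ^ k * -(m0 j).u.coeff k := by
      have : mdlM k (m0 j) 0 1 = Polynomial.C ((-1 : K) ^ k) * (-expand K 2 (m0 j).u) := by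
        rw [expand_eq_comp_X_pow]; simp [mdlM]
      rw [this, coeff_C_mul, coeff_neg, mul_comm 2 k, coeff_expand_mul (by norm_num)]
    have e10 : (mdlM k (m0 j) 1 0).coeff (2 * k) = (-1) ^ k * (m0 j).v.coeff k := by
      have : mdlM k (m0 j) 1 0 = Polynomial.C ((-1 : K) ^ k) * (expand K 2 (m0 j).v) := by
        rw [expand_eq_comp_X_pow]; simp [mdlM]
      rw [this, coeff_C_mul, mul_comm 2 k, coeff_expand_mul (by norm_num)]
    have f01 : (T j).w ^ 6 - ((T j).y + (T j).v ^ 3) ^ 2 = (T j).ms * (T j).p := by unfold Vtx.ms Vtx.p; ring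
    have f10 : (T j).w ^ 6 - ((T j).y - (T j).v ^ 3) ^ 2 = (T j).m * (T j).ps := by unfold Vtx.m Vtx.ps; ring
    rw [e01, f01] at t01
    rw [e10, f10] at t10
    intro h0
    rcases mul_eq_zero.1 h0 with h | h
    · rw [h, neg_zero, mul_zero] at t01
      have : (T j).ms * (T j).p / 2 ≠ 0 := div_ne_zero (mul_ne_zero (h4 j).2.2.2 (h4 j).1) two_ne_zero
      exact this t01.symm
    · rw [h, mul_zero] at t10
      have : (T j).m * (T j).ps / 2 ≠ 0 := div_ne_zero (mul_ne_zero (h4 j).2.2.1 (h4 j).2.1) two_ne_zero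
      exact this t10.symm
  obtain ⟨M, π0, π1, hne, hon, hgal, hrd, hbd⟩ := curveBX C hX hab j0 hn hk hb ha0 hb0 hq0 hOn0'
    (fun j => by rw [hy0, ← hT]; exact hy j) huv
  have hon' : ∀ m ∈ M, ∀ j, OnS (X.W j) k ((stX C k m).st j) := by
    intro m hm j
    obtain ⟨-, h1⟩ := hon m hm j
    have hlm : ((m.1.map C.bp).map (lab (X.W j)) : Multiset (Om K × Om K)) = m.1.map fun β => (β (C.col j).A, β (C.col j).B) := by
      rw [Multiset.map_map]
      exact Multiset.map_congr rfl fun β _ => fb_lab C j β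
    refine ⟨?_, ?_, ?_, ?_⟩
    · intro β' hβ' q hq
      obtain ⟨β, hβ, rfl⟩ := Multiset.mem_map.1 hβ'
      have h2 := ev_bp (C.col j) β q
      rw [Cht.col_bp] at h2
      rw [h2]
      have h3 : MvPolynomial.aeval (C.col j).t q = 0 := C.I q hq
      rw [h3, map_zero]
    · intro β' hβ' h0
      obtain ⟨β, hβ, rfl⟩ := Multiset.mem_map.1 hβ'
      obtain ⟨b', hb', hr⟩ := Multiset.exists_mem_of_rel_of_mem (hrd m hm).1 hβ
      obtain ⟨i, -, rfl⟩ := Multiset.mem_map.1 hb'
      have h2 := hr (C.col j).A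
      have h3 : β (C.col j).A = 0 := by
        have h4 := ev_bp (C.col j) β (X.W j).a
        rw [Cht.col_bp, h0, ev_zero (hX.W j).a (by have := (hX.W j).n; omega)] at h4
        exact h4.symm
      rw [h3] at h2
      exact ha0 j i (Rd.zero.unique h2).symm
    · show St k ((m.1.map C.bp).map (lab (X.W j))) (mdlM k (m.2 j))
      rw [hlm]
      exact mdlB_st hk0 h1
    · have h2 := h1.eqy
      show (m.2 j).y ^ 2 = (m.2 j).x ^ 3 - 3 * ((m.1.map C.bp).map fun β => ev (X.W j).a β).prod * (m.2 j).x -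
        2 * (mdlM k (m.2 j) 0 0).coeff (2 * k)
      rw [mdlB_top hk0 h1, h2]
      congr 3
      rw [Multiset.map_map, Multiset.map_map]
      congr 2
      refine Multiset.map_congr rfl fun β _ => ?_
      have h3 := ev_bp (C.col j) β (X.W j).a
      rw [Cht.col_bp] at h3
      exact h3.symm
  refine ⟨M.map (stX C k), π0, π1, ?_, ?_, ?_, ?_, ?_⟩
  · rw [Ne, Multiset.map_eq_zero]
    exact hne
  · intro m' hm' j
    obtain ⟨m, hm, rfl⟩ := Multiset.mem_map.1 hm'
    exact hon' m hm j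
  · intro σ
    rw [Multiset.map_map]
    have h2 : ∀ m ∈ M, (MsX.map (σ : Om K →+* Om K) ∘ stX C k) m = (stX C k ∘ galMX σ) m := by
      intro m _
      refine MsX.ext ?_ rfl rfl ?_
      · show (m.1.map C.bp).map (fun β i => σ (β i)) = (m.1.map _).map C.bp
        rw [Multiset.map_map, Multiset.map_map]
        rfl
      · funext j
        exact (fb_map k (σ : Om K →+* Om K) (m.2 j)).symm
    rw [Multiset.map_congr rfl h2, ← Multiset.map_map, hgal σ]
  · intro m' hm' j
    obtain ⟨m, hm, rfl⟩ := Multiset.mem_map.1 hm'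
    obtain ⟨h1, h2'⟩ := hrd m hm
    have h2 := h2' j
    refine ⟨?_, ?_, ?_, ?_⟩
    · show Multiset.Rel _ (m.1.map C.bp) ((List.ofFn fun i => C.bp (b i) : List (Fin s → K)) : Multiset (Fin s → K))
      have e1 : ((List.ofFn fun i => C.bp (b i) : List (Fin s → K)) : Multiset (Fin s → K)) = (Finset.univ.val.map b).map C.bp := by
        rw [Multiset.map_map, Fin.univ_val_map]
        rfl
      rw [e1, Multiset.rel_map]
      exact h1.mono fun β _ b' _ h i => h (C.t i)
    · have := h2.x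
      rw [hx0, ← hT] at this
      exact this
    · have := h2.y
      rw [hy0, ← hT] at this
      exact this
    · have h3 := fb_rd (k := k) h2
      rw [hM0] at h3
      exact h3
  · intro m' hm'
    obtain ⟨m, hm, rfl⟩ := Multiset.mem_map.1 hm'
    rcases hbd m hm with ⟨β, hβ, r, hr⟩ | ⟨j, hnb⟩
    · refine ⟨j0, ?_⟩
      intro w v hx f' hf'
      obtain ⟨hB, -, -, -⟩ := hf'
      have h1 : C.bp β ∈ ((stX C k m).st j0).B := Multiset.mem_map_of_mem _ hβ
      rw [← hB] at h1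
      obtain ⟨g, hg, hgβ⟩ := List.mem_map.1 (Multiset.mem_coe.1 h1)
      refine ⟨g, hg, ?_⟩
      have hpt : Lk.pt g = (⟨C.bp β, g.2.w ^ 2 + g.2.v ^ 2, g.2.y⟩ : Pt s (Om K)) := by
        unfold Lk.pt
        rw [← hgβ]
      rw [hpt]
      exact nul_bx C hX hk0 hinf (Or.inl ⟨r, hr⟩)
    · refine ⟨j, ?_⟩
      intro w v hx f' hf'
      obtain ⟨hB, hlb, ⟨c', hc, hXX⟩, htot⟩ := hf'
      obtain ⟨hq1, hOn⟩ := hon m hm j
      by_contra hcon
      push Not at hcon
      -- every link is over a point of the chart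
      have key : ∀ g ∈ f', ∀ β : R →ₐ[K] Om K, C.bp β = g.1 → (∀ r, β r ∈ π1.V) ∧ g.2.w ^ 2 + g.2.v ^ 2 ∈ π1.V := by
        intro g hg β hgβ
        have hnul := hcon g hg
        have hpt : g.pt = ⟨C.bp β, g.2.w ^ 2 + g.2.v ^ 2, g.2.y⟩ := by
          unfold Lk.pt
          rw [← hgβ]
        rw [hpt] at hnul
        refine ⟨?_, ?_⟩
        · intro r
          by_contra hr
          exact hnul (nul_bx C hX hk0 hinf (Or.inl ⟨r, hr⟩))
        · by_contra hr
          exact hnul (nul_bx C hX hk0 hinf (Or.inr hr))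
      have hint : ∀ g ∈ f'.map Prod.snd, g.ab.1 ∈ π1.V ∧ g.w ^ 2 + g.v ^ 2 ∈ π1.V ∧ g.y ∈ π1.V := by
        intro u hu
        obtain ⟨g, hg, rfl⟩ := List.mem_map.1 hu
        have h0 : g.1 ∈ ((stX C k m).st j).B := by
          rw [← hB]
          exact Multiset.mem_coe.2 (List.mem_map.2 ⟨g, hg, rfl⟩)
        obtain ⟨β, -, hgβ⟩ := Multiset.mem_map.1 h0
        obtain ⟨h1, h2⟩ := key g hg β hgβ
        have hgl := hlb g hg
        rw [← hgβ, fb_lab] at hgl
        have e1 : (g.2.w * g.2.v) ^ 2 = β (C.col j).A := congrArg Prod.fst hgl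
        have e2 : (g.2.w ^ 6 + g.2.v ^ 6 - g.2.y ^ 2) / 2 = β (C.col j).B := congrArg Prod.snd hgl
        refine ⟨?_, h2, ?_⟩
        · rw [hgl]
          exact h1 (C.col j).A
        · refine mem_of_pow (n := 2) (by norm_num) ?_
          have e3 : g.2.y ^ 2 = (g.2.w ^ 2 + g.2.v ^ 2) ^ 3 - 3 * β (C.col j).A * (g.2.w ^ 2 + g.2.v ^ 2) - 2 * β (C.col j).B := by
            rw [← e1, ← e2]
            field_simp
            ring
          rw [e3]
          have m3 : (3 : Om K) ∈ π1.V := (Rd.three (V := π1.V) (φ := π1.φ)).mem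
          have m2 : (2 : Om K) ∈ π1.V := (Rd.two (V := π1.V) (φ := π1.φ)).mem
          exact sub_mem (sub_mem (pow_mem h2 3) (mul_mem (mul_mem m3 (h1 (C.col j).A)) h2)) (mul_mem m2 (h1 (C.col j).B))
      refine hnb (end_b (c := c') (f := f'.map Prod.snd) (k := k) (z := z j) ?_ hc hXX ?_ ?_ hint)
      · intro i
        rw [hq1, coeff_one]
        split_ifs
        · exact π1.V.one_mem
        · exact π1.V.zero_mem
      · rw [htot]
        rfl
      · rw [htot]
        exact hx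

/-- the form with one column with a singular fibre at infinity -/
theorem famX (hX : X.Ok) {j0 : Fin c} (hinf : dd (X.W j0) C.inf = 0) (hab : ∀ j, ∀ e f : K, e • C.A j ^ 3 = f • C.B j ^ 2 → e = 0 ∧ f = 0)
    (hd : 0 < C.d) (hk : (∑ j, X.n j) * C.d + P.g ≤ k) {b : Fin k → (R →ₐ[K] K)} (hb : Function.Injective b)
    (hnd : ∀ i j, ES.ND (lab (X.W j) (C.bp (b i)))) {f : Fin c → List (Lk s K)} (hf : ∀ j, (f j).map Prod.fst = List.ofFn fun i => C.bp (b i))
    (hl : ∀ j, ∀ g ∈ f j, g.2.ab = lab (X.W j) g.1) {T : Fin c → Vtx K} (hT : ∀ j, T j = tot ((f j).map Prod.snd))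
    (h4 : ∀ j, (T j).p ≠ 0 ∧ (T j).ps ≠ 0 ∧ (T j).m ≠ 0 ∧ (T j).ms ≠ 0) (hy : ∀ j, (T j).y ≠ 0) {z : Fin c → K} (hz : ∀ j, z j ^ 3 = 1) :
    FamX X k z ⟨((List.ofFn fun i => C.bp (b i) : List (Fin s → K)) : Multiset (Fin s → K)),
      fun j => z j * (T j).w ^ 2 + z j ^ 2 * (T j).v ^ 2, fun j => (T j).y, fun j => XX ((f j).map Prod.snd)⟩ := by
  refine fam_bx C hX ⟨j0, hinf⟩ hab j0 (fun j => ?_) ?_ hb (fun j i => hnd i j) hf hl hT h4 hy hz
  · rw [Cht.col_n]
    exact Nat.mul_pos (hX.n j) hd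
  · have e : ∑ j, (C.col j).n = (∑ j, X.n j) * C.d := by
      rw [Finset.sum_mul]
      exact Finset.sum_congr rfl fun j _ => C.col_n j
    rw [e]
    exact hk

end GB
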