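import Pool.Agent.H79.FX.Cht
import Pool.Agent.H71.EX.GCurveX
import Pool.Agent.H99.GC.CurB

/-! # GX.CurBX : the curve theorem for `c` columns over the chart of a base curve -/

namespace GB

open ES H68.BB Module Polynomial H71.ES H71.EG FX

section
variable {F : Type} [Field F]

private theorem cub_on {k : ℕ} {S : Multiset (F × F)} (hc : S.card = k) {r : ℕ} {K : Type} [Field K] [Algebra K F] {D : H71.EG.ND K r}
    {m : GM r F} (h : OnG D k m) {c : F} (hA : (S.map Prod.fst).prod = D.vA m.lam * c ^ 4) (hB : (S.map Prod.snd).prod = D.vB m.lam * c ^ 6)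
    (hN : (S.map fun e => C (e.1 ^ 3) * (X + 1) ^ 2 - C (4 * e.2 ^ 2) * X).prod = D.vN m.lam * C (c ^ 12)) :
    OnB k S (scM c m.md) := by
  have hp := h.pal
  refine ⟨hc, ⟨?_, ?_, ?_, ?_, ?_, ?_, ?_, ?_⟩, ?_, ?_, ?_⟩
  · exact (natDegree_C_mul_le _ _).trans hp.dt
  · exact (natDegree_C_mul_le _ _).trans hp.du
  · exact (natDegree_C_mul_le _ _).trans hp.dv
  · exact (natDegree_C_mul_le _ _).trans hp.ds
  · intro i hi
    change (C (c ^ 6) * m.md.t).coeff (k - i) = (-1) ^ k * (C (c ^ 6) * m.md.t).coeff i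
    rw [coeff_C_mul, coeff_C_mul, hp.pt i hi]; ring
  · intro i hi
    change (C (c ^ 6) * m.md.u).coeff (k - i) = -(-1) ^ k * (C (c ^ 6) * m.md.u).coeff i
    rw [coeff_C_mul, coeff_C_mul, hp.pu i hi]; ring
  · intro i hi
    change (C (c ^ 6) * m.md.v).coeff (k - i) = -(-1) ^ k * (C (c ^ 6) * m.md.v).coeff i
    rw [coeff_C_mul, coeff_C_mul, hp.pv i hi]; ring
  · intro i hi
    change (C (c ^ 6) * m.md.s).coeff (k - 1 - i) = (-1) ^ k * (C (c ^ 6) * m.md.s).coeff i
    rw [coeff_C_mul, coeff_C_mul, hp.ps i hi]; ring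
  · have h1 := h.det
    unfold H71.EG.dfD at h1
    rw [hN]
    change (C (c ^ 6) * m.t) ^ 2 + (C (c ^ 6) * m.u) * (C (c ^ 6) * m.v) - X * (C (c ^ 6) * m.s) ^ 2 = _
    have h2 : D.vN m.lam = m.t ^ 2 + m.u * m.v - X * m.s ^ 2 := by linear_combination -h1
    rw [h2]
    simp only [map_pow]
    ring
  · have h1 := h.tm1
    unfold H71.EG.dfT at h1
    change (C (c ^ 6) * m.t).eval (-1) = _
    rw [eval_mul, eval_C, hB]
    linear_combination (c ^ 6) * h1
  · have h1 := h.eqy
    unfold GM.rhs at h1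
    change (c ^ 3 * m.y) ^ 2 = (c ^ 2 * m.x) ^ 3 - 3 * (S.map Prod.fst).prod * (c ^ 2 * m.x) - 2 * (C (c ^ 6) * m.t).coeff 0
    rw [coeff_C_mul, hA]
    linear_combination (c ^ 6) * h1

end

section
variable {K : Type} [Field K] {π : Place K (Om K)}

private theorem rd_ms_prod {α : Type} (S : Multiset α) {f : α → Om K} (h : ∀ a ∈ S, Rd π.V π.φ (f a) 1) :
    Rd π.V π.φ (S.map f).prod 1 := by
  induction S using Multiset.induction_on with
  | empty => rw [Multiset.map_zero, Multiset.prod_zero]; exact Rd.one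
  | cons a S ih =>
    rw [Multiset.map_cons, Multiset.prod_cons]
    have h1 := (h a (Multiset.mem_cons_self _ _)).mul (ih fun b hb => h b (Multiset.mem_cons_of_mem hb))
    rwa [one_mul] at h1

private theorem rd_fs_sum {ι : Type} (S : Finset ι) {f : ι → Om K} (h : ∀ a ∈ S, Rd π.V π.φ (f a) 0) :
    Rd π.V π.φ (∑ a ∈ S, f a) 0 := by
  classical
  induction S using Finset.induction_on with
  | empty => rw [Finset.sum_empty]; exact Rd.zero
  | insert a S ha ih =>
    rw [Finset.sum_insert ha]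
    have h1 := (h a (Finset.mem_insert_self _ _)).add (ih fun b hb => h b (Finset.mem_insert_of_mem hb))
    rwa [add_zero] at h1

end

variable {K : Type} [Field K] [IsAlgClosed K] [CharZero K] {s c : ℕ} {X : XD K s c} {R : Type} [CommRing R] [Algebra K R] {P : OnePt K R} (C : Cht X P)

/-- the action of an automorphism on families -/
noncomputable def galMX (σ : Om K ≃ₐ[RatFunc K] Om K) (m : Multiset (R →ₐ[K] Om K) × (Fin c → Mdl (Om K))) :
    Multiset (R →ₐ[K] Om K) × (Fin c → Mdl (Om K)) :=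
  (m.1.map (fun β => ((σ.restrictScalars K : Om K ≃ₐ[K] Om K) : Om K →ₐ[K] Om K).comp β), fun j => (m.2 j).map (σ : Om K →+* Om K))

theorem curveBX (hX : X.Ok) (hab : ∀ j, ∀ e f : K, e • (C.col j).A ^ 3 = f • (C.col j).B ^ 2 → e = 0 ∧ f = 0) {k : ℕ} (j0 : Fin c)
    (hn : ∀ j, 0 < (C.col j).n) (hk : ∑ j, (C.col j).n + P.g ≤ k) {b : Fin k → (R →ₐ[K] K)} (hb : Function.Injective b)
    (ha0 : ∀ j i, b i (C.col j).A ≠ 0) (hb0 : ∀ j i, b i (C.col j).B ≠ 0) {m0 : Fin c → Mdl K} (h1 : ∀ j, (m0 j).q = 1)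
    (h0 : ∀ j, OnB k (Finset.univ.val.map fun i => (b i (C.col j).A, b i (C.col j).B)) (m0 j)) (hy : ∀ j, (m0 j).y ≠ 0)
    (huv : ∀ j, ∃ i i', (m0 j).u.coeff i * (m0 j).v.coeff i' ≠ 0) :
    ∃ (M : Multiset (Multiset (R →ₐ[K] Om K) × (Fin c → Mdl (Om K)))) (π0 π1 : Place K (Om K)), M ≠ 0 ∧
      (∀ m ∈ M, ∀ j, (m.2 j).q = 1 ∧ OnB k (m.1.map fun β => (β (C.col j).A, β (C.col j).B)) (m.2 j)) ∧
      (∀ σ : Om K ≃ₐ[RatFunc K] Om K, M.map (galMX σ) = M) ∧
      (∀ m ∈ M, Multiset.Rel (RdP π0) m.1 (Finset.univ.val.map b) ∧ ∀ j, RdM π0 (m.2 j) (m0 j)) ∧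
      (∀ m ∈ M, (∃ β ∈ m.1, ∃ f, β f ∉ π1.V) ∨ ∃ j, ¬ Bdd π1 (m.2 j)) := by
  classical
  have hdom := isDomain P
  obtain ⟨r, μ, hr, hli, hneg⟩ := poles P hb
  set E : Pen P k r := ⟨b, hb, μ, hli, hneg⟩ with hE
  let U : Fin c → Multiset (R →ₐ[K] K) := fun j => X.n j • C.U
  have hUreg : ∀ j, Reg K (U j) := by
    intro j e he
    change e ∈ X.n j • C.U at he
    rw [Multiset.mem_nsmul] at he
    exact C.reg e he.2
  have hcard : ∀ j, X.n j * C.m - (U j).card = (C.col j).n := by
    intro j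
    change X.n j * C.m - (X.n j • C.U).card = X.n j * (C.m - C.U.card)
    rw [Multiset.card_nsmul, Nat.mul_sub]
  have hexN : ∀ j, ∃ N : H71.EG.ND K r, N.Ok (C.col j).n k ∧ ∀ (F : Type) [Field F] [IsAlgClosed F] [Algebra K F] (lam : Fin r → F),
      ((E.S lam).map fun β => β (C.col j).A).prod = N.vA lam * (MvPolynomial.aeval lam ((U j).map E.lin).prod) ^ 4 ∧
      ((E.S lam).map fun β => β (C.col j).B).prod = N.vB lam * (MvPolynomial.aeval lam ((U j).map E.lin).prod) ^ 6 ∧
      ((E.S lam).map fun β => Polynomial.C (β (C.col j).A ^ 3) * (Polynomial.X + 1) ^ 2 -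
        Polynomial.C (4 * β (C.col j).B ^ 2) * Polynomial.X).prod =
        N.vN lam * Polynomial.C ((MvPolynomial.aeval lam ((U j).map E.lin).prod) ^ 12) := by
    intro j
    have hA0 : (C.col j).A ≠ 0 := by
      intro h
      exact one_ne_zero (hab j 1 0 (by rw [h]; simp)).1
    have hB0 : (C.col j).B ≠ 0 := by
      intro h
      exact one_ne_zero (hab j 0 1 (by rw [h]; simp)).2
    have hdA : P.deg (C.col j).A ≤ 4 * (X.n j * C.m) := by
      rcases ch_deg (C.col j) (hX.a j) with h | h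
      · exact absurd h hA0
      · have h' : P.deg (C.col j).A < C.m * (4 * X.n j) + 1 := h
        have : C.m * (4 * X.n j) = 4 * (X.n j * C.m) := by ring
        omega
    have hdB : P.deg (C.col j).B ≤ 6 * (X.n j * C.m) := by
      rcases ch_deg (C.col j) (hX.b j) with h | h
      · exact absurd h hB0
      · have h' : P.deg (C.col j).B < C.m * (6 * X.n j) + 1 := h
        have : C.m * (6 * X.n j) = 6 * (X.n j * C.m) := by ring
        omega
    have hUa : 4 • U j ≤ zk K (C.col j).A := by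
      have h := ch_ord (C.col j) (hX.a j) hA0
      rwa [mul_smul] at h
    have hUb : 6 • U j ≤ zk K (C.col j).B := by
      have h := ch_ord (C.col j) (hX.b j) hB0
      rwa [mul_smul] at h
    have hbU : ∀ i, E.b i ∉ U j := by
      intro i hi
      have hi2 : E.b i ∈ X.n j • C.U := hi
      rw [Multiset.mem_nsmul] at hi2
      have h2 : E.b i ∈ zk K (C.col j).A := by
        refine Multiset.mem_of_le hUa ?_
        rw [Multiset.mem_nsmul]
        exact ⟨by norm_num, hi⟩
      exact ha0 j i ((mem_zk P hA0 _).1 h2)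
    obtain ⟨N, hN, hval⟩ := exists_ND E (hUreg j) hbU (hab j) hdA hdB hUa hUb (ha0 j) (hb0 j)
    rw [hcard] at hN
    exact ⟨N, hN, fun F _ _ _ lam => hval F lam⟩
  choose N hN hval using hexN
  -- the scaling factors
  set NU : Fin c → MvPolynomial (Fin r) K := fun j => ((U j).map E.lin).prod with hNU
  have nu_eval : ∀ (j : Fin c) {F : Type} [Field F] [IsAlgClosed F] [Algebra K F] (lam : Fin r → F),
      MvPolynomial.aeval lam (NU j) = ((U j).map fun e => 1 + ∑ i, lam i * algebraMap K F (E.val e i)).prod := by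
    intro j F _ _ _ lam
    change MvPolynomial.aeval lam ((U j).map E.lin).prod = _
    rw [map_multiset_prod, Multiset.map_map]
    congr 1
    exact Multiset.map_congr rfl fun e _ => lin_eval E lam e
  have nu0 : ∀ j, MvPolynomial.aeval (0 : Fin r → K) (NU j) = 1 := by
    intro j
    rw [nu_eval]
    simp
  -- the starting point
  set m0' : Fin c → GM r K := fun j => ⟨0, (m0 j).x, (m0 j).y, (m0 j).s, (m0 j).t, (m0 j).u, (m0 j).v⟩ with hm0'
  have hS0 : E.S (0 : Fin r → K) = Finset.univ.val.map (fun i => cF K (E.b i)) := S_zero E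
  have hG0 : ∀ j, OnG (N j) k (m0' j) := by
    intro j
    obtain ⟨hvA, hvB, hvN⟩ := hval j K 0
    have nj : MvPolynomial.aeval (0 : Fin r → K) ((U j).map E.lin).prod = 1 := nu0 j
    rw [hS0, Multiset.map_map, nj, one_pow, mul_one] at hvA hvB
    rw [hS0, Multiset.map_map, nj, one_pow, map_one, mul_one] at hvN
    have hp := (h0 j).pal
    refine ⟨⟨⟨hp.dt, hp.du, hp.dv, hp.ds, hp.pt, hp.pu, hp.pv, hp.ps⟩, ?_, ?_⟩, ?_⟩
    · have h2 := (h0 j).det
      rw [Multiset.map_map] at h2
      have h3 : (N j).vN (m0' j).lam = (m0 j).t ^ 2 + (m0 j).u * (m0 j).v - Polynomial.X * (m0 j).s ^ 2 := by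
        rw [h2]
        exact hvN.symm
      unfold H71.EG.dfD
      rw [h3]
      exact sub_self _
    · have h2 := (h0 j).tm1
      rw [Multiset.map_map] at h2
      have h3 : (N j).vB (m0' j).lam = (Finset.univ.val.map fun i => b i (C.col j).B).prod := hvB.symm
      unfold H71.EG.dfT
      rw [h3]
      exact sub_eq_zero.2 h2
    · have h2 := (h0 j).eqy
      rw [Multiset.map_map] at h2
      have h3 : (N j).vA (m0' j).lam = (Finset.univ.val.map fun i => b i (C.col j).A).prod := hvA.symm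
      unfold GM.rhs
      rw [h3]
      exact h2
  have hk0 : 0 < k := by
    have h2 : (C.col j0).n ≤ ∑ j, (C.col j).n := Finset.single_le_sum (f := fun j => (C.col j).n) (fun _ _ => Nat.zero_le _) (Finset.mem_univ j0)
    have h3 := hn j0
    omega
  obtain ⟨cc, M, π0, π1, hcl, hc0, hcd, hM0, hMon, hMg, hMr, hMb, hMp⟩ :=
    H71.EX.gcurveX hN hn hk0 (by omega) j0 (m0 := m0') (fun _ => rfl) hG0 hy huv
  -- the parameters are common
  have hlj : ∀ m ∈ M, ∀ j, (m j).lam = (m j0).lam := by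
    intro m hm j
    obtain ⟨x, -, hx⟩ := hMp m hm
    obtain ⟨s1, e1⟩ := hx j
    obtain ⟨s2, e2⟩ := hx j0
    rw [e1, e2]
    funext i
    change aeval x ((cc j).lam i) = aeval x ((cc j0).lam i)
    rw [hcl j]
  -- the transfer
  set nu : Fin c → (Fin c → GM r (Om K)) → Om K := fun j m => MvPolynomial.aeval (m j0).lam (NU j) with hnu
  set Φ : (Fin c → GM r (Om K)) → Multiset (R →ₐ[K] Om K) × (Fin c → Mdl (Om K)) :=
    fun m => (E.S (m j0).lam, fun j => scM (nu j m) (m j).md) with hΦ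
  refine ⟨M.map Φ, π0, π1, ?_, ?_, ?_, ?_, ?_⟩
  · rw [Ne, Multiset.map_eq_zero]
    exact hM0
  · intro m' hm' j
    obtain ⟨m, hm, rfl⟩ := Multiset.mem_map.1 hm'
    refine ⟨rfl, ?_⟩
    obtain ⟨qA, qB, qN⟩ := hval j (Om K) (m j).lam
    have hl := hlj m hm j
    have e1 : nu j m = MvPolynomial.aeval (m j).lam ((U j).map E.lin).prod := by
      change MvPolynomial.aeval (m j0).lam ((U j).map E.lin).prod = _
      rw [hl]
    change OnB k ((E.S (m j0).lam).map fun β => (β (C.col j).A, β (C.col j).B)) (scM (nu j m) (m j).md)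
    rw [e1, ← hl]
    refine cub_on ?_ (hMon m hm j) ?_ ?_ ?_
    · rw [Multiset.card_map]
      exact S_card E (m j).lam
    · rw [Multiset.map_map]
      exact qA
    · rw [Multiset.map_map]
      exact qB
    · rw [Multiset.map_map]
      exact qN
  · intro σ
    rw [Multiset.map_map]
    have h2 : ∀ m ∈ M, (galMX σ ∘ Φ) m = (Φ ∘ fun m j => (m j).map (σ : Om K →+* Om K)) m := by
      intro m _
      have e1 : (E.S (m j0).lam).map (fun β => ((σ.restrictScalars K : Om K ≃ₐ[K] Om K) : Om K →ₐ[K] Om K).comp β) =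
          E.S (fun j => σ ((m j0).lam j)) := S_gal E (σ.restrictScalars K) (m j0).lam
      have e2 : ∀ j, σ (nu j m) = nu j (fun j => (m j).map (σ : Om K →+* Om K)) := by
        intro j
        change σ (MvPolynomial.aeval (m j0).lam (NU j)) = MvPolynomial.aeval (fun i => σ ((m j0).lam i)) (NU j)
        have h3 := MvPolynomial.comp_aeval_apply (f := (m j0).lam) ((σ.restrictScalars K : Om K ≃ₐ[K] Om K) : Om K →ₐ[K] Om K) (NU j)
        exact h3
      refine Prod.ext e1 ?_
      funext j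
      change (scM (nu j m) (m j).md).map (σ : Om K →+* Om K) =
        scM (nu j (fun j => (m j).map (σ : Om K →+* Om K))) ((m j).map (σ : Om K →+* Om K)).md
      rw [← e2 j]
      unfold scM Mdl.map GM.map GM.md
      ext1
      · exact Polynomial.map_one _
      · simp
      · simp
      · simp
      · simp
      · simp
      · simp
    rw [Multiset.map_congr rfl h2, ← Multiset.map_map, hMg σ]
  · intro m' hm'
    obtain ⟨m, hm, rfl⟩ := Multiset.mem_map.1 hm'
    refine ⟨S_rd E (hMr m hm j0).lam, fun j => ?_⟩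
    have hr := hMr m hm j
    have hr0 := hMr m hm j0
    have hnu1 : Rd π0.V π0.φ (nu j m) 1 := by
      change Rd π0.V π0.φ (MvPolynomial.aeval (m j0).lam (NU j)) 1
      rw [nu_eval]
      refine rd_ms_prod _ fun e _ => ?_
      have h2 : Rd π0.V π0.φ (∑ i, (m j0).lam i * algebraMap K (Om K) (E.val e i)) 0 := by
        refine rd_fs_sum _ fun i _ => ?_
        have h3 := (hr0.lam i).mul (π0.const (E.val e i))
        change Rd π0.V π0.φ _ (0 * _) at h3
        rwa [zero_mul] at h3
      have h3 := (Rd.one (V := π0.V) (φ := π0.φ)).add h2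
      rwa [add_zero] at h3
    have hpow : ∀ n : ℕ, Rd π0.V π0.φ (nu j m ^ n) 1 := by
      intro n
      have h2 := hnu1.pow n
      rwa [one_pow] at h2
    have hmul : ∀ (n : ℕ) {x : Om K} {x' : K}, Rd π0.V π0.φ x x' → Rd π0.V π0.φ (nu j m ^ n * x) x' := by
      intro n x x' hx
      have h2 := (hpow n).mul hx
      rwa [one_mul] at h2
    refine ⟨?_, hmul 2 hr.x, hmul 3 hr.y, ?_, ?_, ?_, ?_⟩
    · intro i
      rw [h1 j]
      change Rd π0.V π0.φ ((1 : (Om K)[X]).coeff i) ((1 : K[X]).coeff i)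
      rw [coeff_one, coeff_one]
      split_ifs
      · exact Rd.one
      · exact Rd.zero
    · intro i
      change Rd π0.V π0.φ ((Polynomial.C (nu j m ^ 6) * (m j).s).coeff i) _
      rw [coeff_C_mul]
      exact hmul 6 (hr.s i)
    · intro i
      change Rd π0.V π0.φ ((Polynomial.C (nu j m ^ 6) * (m j).t).coeff i) _
      rw [coeff_C_mul]
      exact hmul 6 (hr.t i)
    · intro i
      change Rd π0.V π0.φ ((Polynomial.C (nu j m ^ 6) * (m j).u).coeff i) _
      rw [coeff_C_mul]
      exact hmul 6 (hr.u i)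
    · intro i
      change Rd π0.V π0.φ ((Polynomial.C (nu j m ^ 6) * (m j).v).coeff i) _
      rw [coeff_C_mul]
      exact hmul 6 (hr.v i)
  · intro m' hm'
    obtain ⟨m, hm, rfl⟩ := Multiset.mem_map.1 hm'
    by_contra hcon
    push Not at hcon
    obtain ⟨hint, hbd⟩ := hcon
    obtain ⟨x, hx, hmx⟩ := hMp m hm
    obtain ⟨t, hmx0⟩ := hmx j0
    -- the parameters are linear
    have hlam : (m j0).lam = fun i => x * algebraMap K (Om K) (((cc j0).lam i).coeff 1) := by
      funext i
      have e1 : (m j0).lam i = aeval x ((cc j0).lam i) := by rw [hmx0]; rfl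
      have e2 : ((cc j0).lam i).coeff 0 = 0 := by
        have h2 := congrArg (fun q : GM r K => q.lam i) (hc0 j0)
        have h3 : ((cc j0).lam i).eval 0 = 0 := h2
        rwa [← coeff_zero_eq_eval_zero] at h3
      have e3 : (cc j0).lam i = Polynomial.C (((cc j0).lam i).coeff 1) * Polynomial.X + Polynomial.C (((cc j0).lam i).coeff 0) :=
        eq_X_add_C_of_natDegree_le_one (hcd j0 i)
      rw [e1]
      conv_lhs => rw [e3, e2]
      rw [map_zero, add_zero, map_mul, aeval_C, aeval_X, mul_comm]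
    by_cases hz : (fun i => ((cc j0).lam i).coeff 1) = 0
    · have hl0 : (m j0).lam = 0 := by
        rw [hlam]
        funext i
        have := congrFun hz i
        change x * algebraMap K (Om K) (((cc j0).lam i).coeff 1) = 0
        rw [show ((cc j0).lam i).coeff 1 = 0 from this, map_zero, mul_zero]
      obtain ⟨j, hj⟩ := hMb m hm
      have hnu1 : nu j m = 1 := by
        change MvPolynomial.aeval (m j0).lam (NU j) = 1
        rw [nu_eval, hl0]
        simp
      have hb2 : Bdd π1 (scM (nu j m) (m j).md) := hbd j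
      rw [hnu1] at hb2
      refine hj ⟨?_, ?_, ?_, ?_, ?_, ?_⟩
      · intro i
        rw [hlj m hm j, hl0]
        exact π1.V.zero_mem
      · have h2 := hb2.x
        change (1 : Om K) ^ 2 * (m j).x ∈ π1.V at h2
        rwa [one_pow, one_mul] at h2
      · have h2 := hb2.y
        change (1 : Om K) ^ 3 * (m j).y ∈ π1.V at h2
        rwa [one_pow, one_mul] at h2
      · intro i
        have h2 := hb2.s i
        change (Polynomial.C ((1 : Om K) ^ 6) * (m j).s).coeff i ∈ π1.V at h2
        rwa [one_pow, map_one, one_mul] at h2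
      · intro i
        have h2 := hb2.t i
        change (Polynomial.C ((1 : Om K) ^ 6) * (m j).t).coeff i ∈ π1.V at h2
        rwa [one_pow, map_one, one_mul] at h2
      · intro i' i''
        have h2 := hb2.uv i' i''
        change (Polynomial.C ((1 : Om K) ^ 6) * (m j).u).coeff i' * (Polynomial.C ((1 : Om K) ^ 6) * (m j).v).coeff i'' ∈ π1.V at h2
        rwa [one_pow, map_one, one_mul, one_mul] at h2
    · obtain ⟨β, hβ, f, hf⟩ := S_unb E hz hx
      rw [← hlam] at hβ
      exact hf (hint β hβ f)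

end GB
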